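import Mathlib

open TopologicalSpace Cardinal

namespace Pool.Agent.Results.MP_e4445d_al.BidualWeight

universe u

/-- The continuous homomorphisms from `G` to the circle group `ℝ/ℤ`, as a group under pointwise
operations. -/
def dualSubgroup (G : Type u) [NormedAddCommGroup G] : AddSubgroup (G →+ UnitAddCircle) where
  carrier := {χ | Continuous χ}
  add_mem' := by
    intro a b ha hb
    exact Continuous.add ha hb
  zero_mem' := by
    change Continuous (fun _ : G => (0 : UnitAddCircle))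
    exact continuous_const
  neg_mem' := by
    intro a ha
    exact Continuous.neg ha

/-- The metric dual of a normed abelian group, as a group. -/
def MDual (G : Type u) [NormedAddCommGroup G] : Type u := dualSubgroup G

instance instAddCommGroupMDual (G : Type u) [NormedAddCommGroup G] : AddCommGroup (MDual G) :=
  inferInstanceAs (AddCommGroup (dualSubgroup G))

instance instFunLikeMDual (G : Type u) [NormedAddCommGroup G] :
    FunLike (MDual G) G UnitAddCircle where
  coe χ := χ.1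
  coe_injective := by
    intro χ ψ h
    apply Subtype.ext
    exact DFunLike.coe_injective h

/-- The dual norm `p'(χ) = inf {M > 0 : λ(χ(x)) ≤ M p(x) for all x}`. -/
noncomputable def dualNorm {G : Type u} [NormedAddCommGroup G] (χ : MDual G) : ℝ :=
  sInf {M : ℝ | 0 < M ∧ ∀ x : G, ‖χ x‖ ≤ M * ‖x‖}

section basic

variable {G : Type u} [NormedAddCommGroup G]

lemma mk_apply (f : G →+ UnitAddCircle) (hf : Continuous f) (x : G) :
    (show MDual G from ⟨f, hf⟩) x = f x := rfl

lemma zero_apply (x : G) : (0 : MDual G) x = 0 := rfl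
lemma add_apply (χ ψ : MDual G) (x : G) : (χ + ψ) x = χ x + ψ x := rfl
lemma neg_apply (χ : MDual G) (x : G) : (-χ) x = -χ x := rfl
lemma sub_apply (χ ψ : MDual G) (x : G) : (χ - ψ) x = χ x - ψ x := rfl

lemma map_add' (χ : MDual G) (x y : G) : χ (x + y) = χ x + χ y := χ.1.map_add x y
lemma map_zero' (χ : MDual G) : χ 0 = 0 := χ.1.map_zero
lemma map_neg' (χ : MDual G) (x : G) : χ (-x) = - χ x := χ.1.map_neg x
lemma map_sub' (χ : MDual G) (x y : G) : χ (x - y) = χ x - χ y := χ.1.map_sub x y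

lemma cont (χ : MDual G) : Continuous (fun x : G => χ x) := χ.2

lemma ext' {χ ψ : MDual G} (h : ∀ x, χ x = ψ x) : χ = ψ := DFunLike.ext _ _ h

lemma norm_le_half (t : UnitAddCircle) : ‖t‖ ≤ 1 / 2 := by
  have := AddCircle.norm_le_half_period (p := 1) (x := t) one_ne_zero
  simpa using this

lemma norm_two_mul {t : UnitAddCircle} (ht : ‖t‖ < 1 / 4) : ‖t + t‖ = 2 * ‖t‖ := by
  induction t using QuotientAddGroup.induction_on with
  | H x =>
    -- choose a good representative
    have hx : ‖(x : UnitAddCircle)‖ = |x - round x| := UnitAddCircle.norm_eq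
    have hcoe : ((x - round x : ℝ) : UnitAddCircle) = (x : UnitAddCircle) := by
      have : ((round x : ℝ) : UnitAddCircle) = 0 := by
        have := AddCircle.coe_eq_zero_iff (p := (1 : ℝ)) (x := (round x : ℝ))
        rw [this]
        exact ⟨round x, by simp⟩
      rw [AddCircle.coe_sub, this, sub_zero]
    change ‖(x : UnitAddCircle) + (x : UnitAddCircle)‖ = 2 * ‖(x : UnitAddCircle)‖
    change ‖(x : UnitAddCircle)‖ < 1 / 4 at ht
    rw [hx] at ht
    rw [← hcoe, ← AddCircle.coe_add]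
    set y := x - round x with hy
    have h1 : ‖((y + y : ℝ) : UnitAddCircle)‖ = |y + y| := by
      rw [AddCircle.norm_coe_eq_abs_iff _ one_ne_zero]
      rw [abs_one]
      rw [← two_mul, abs_mul, abs_two]
      linarith
    have h2 : ‖((y : ℝ) : UnitAddCircle)‖ = |y| := by
      rw [AddCircle.norm_coe_eq_abs_iff _ one_ne_zero]
      rw [abs_one]
      linarith
    rw [h1, h2, ← two_mul, abs_mul, abs_two]

/-- The basic doubling estimate. -/
lemma doubling (η : G →+ UnitAddCircle) {R : ℝ} (h : ∀ x : G, ‖x‖ ≤ R → ‖η x‖ < 1 / 4) (j : ℕ) :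
    ∀ x : G, 2 ^ j * ‖x‖ ≤ R → 2 ^ j * ‖η x‖ < 1 / 4 := by
  induction j with
  | zero =>
    intro x hx
    simpa using h x (by simpa using hx)
  | succ j ih =>
    intro x hx
    have hxR : ‖x‖ ≤ R := by
      refine le_trans ?_ hx
      have : (1 : ℝ) ≤ 2 ^ (j + 1) := one_le_pow₀ (by norm_num)
      nlinarith [norm_nonneg x]
    have h2x : 2 ^ j * ‖x + x‖ ≤ R := by
      refine le_trans ?_ hx
      have : ‖x + x‖ ≤ 2 * ‖x‖ := by
        have := norm_add_le x x
        linarith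
      have h2 : (0 : ℝ) < 2 ^ j := by positivity
      rw [pow_succ]
      nlinarith
    have h3 := ih (x + x) h2x
    rw [map_add, norm_two_mul (h x hxR)] at h3
    rw [pow_succ]
    linarith

lemma lipschitz_of_small (η : G →+ UnitAddCircle) {R : ℝ} (hR : 0 < R)
    (h : ∀ x : G, ‖x‖ ≤ R → ‖η x‖ < 1 / 4) (x : G) : ‖η x‖ ≤ 1 / (2 * R) * ‖x‖ := by
  rcases eq_or_ne x 0 with rfl | hx0
  · simp
  have hx : 0 < ‖x‖ := norm_pos_iff.2 hx0
  rcases le_or_gt ‖x‖ R with hxR | hxR
  · -- the largest power of two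
    have hR1 : 1 ≤ R / ‖x‖ := by rwa [le_div_iff₀ hx, one_mul]
    obtain ⟨j, hj1, hj2⟩ := exists_nat_pow_near hR1 (by norm_num : (1 : ℝ) < 2)
    rw [le_div_iff₀ hx] at hj1
    rw [div_lt_iff₀ hx] at hj2
    have h3 := doubling η h j x hj1
    have h4 : (0 : ℝ) < 2 ^ j := by positivity
    rw [pow_succ] at hj2
    have h5 : ‖η x‖ * (2 * R) ≤ ‖x‖ := by
      have h6 : ‖η x‖ * (2 * R) ≤ ‖η x‖ * (2 * (2 ^ j * 2 * ‖x‖)) := by
        apply mul_le_mul_of_nonneg_left _ (norm_nonneg _)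
        linarith
      have h7 : ‖η x‖ * (2 * (2 ^ j * 2 * ‖x‖)) = 4 * (2 ^ j * ‖η x‖) * ‖x‖ := by ring
      rw [h7] at h6
      nlinarith
    rw [div_mul_eq_mul_div, one_mul, le_div_iff₀ (by positivity)]
    exact h5
  · have h1 := norm_le_half (η x)
    rw [div_mul_eq_mul_div, one_mul, le_div_iff₀ (by positivity)]
    nlinarith

lemma exists_bound (χ : MDual G) : ∃ M : ℝ, 0 < M ∧ ∀ x : G, ‖χ x‖ ≤ M * ‖x‖ := by
  have hc : Continuous (fun x : G => χ x) := cont χ
  have h0 : ∀ᶠ x in nhds (0 : G), ‖χ x‖ < 1 / 4 := by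
    have : Filter.Tendsto (fun x : G => ‖χ x‖) (nhds 0) (nhds 0) := by
      have := (hc.norm).tendsto 0
      simpa [map_zero'] using this
    exact this.eventually (gt_mem_nhds (by norm_num))
  rw [Metric.eventually_nhds_iff] at h0
  obtain ⟨ε, hε, h⟩ := h0
  refine ⟨1 / (2 * (ε / 2)), by positivity, ?_⟩
  intro x
  apply lipschitz_of_small χ.1 (by positivity : 0 < ε / 2)
  intro y hy
  apply h
  rw [dist_zero_right]
  linarith

lemma set_bddBelow (χ : MDual G) : BddBelow {M : ℝ | 0 < M ∧ ∀ x : G, ‖χ x‖ ≤ M * ‖x‖} :=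
  ⟨0, fun _ hM => hM.1.le⟩

lemma dualNorm_nonneg (χ : MDual G) : 0 ≤ dualNorm χ :=
  Real.sInf_nonneg fun _ hM => hM.1.le

lemma le_dualNorm_mul (χ : MDual G) (x : G) : ‖χ x‖ ≤ dualNorm χ * ‖x‖ := by
  rcases eq_or_ne x 0 with rfl | hx0
  · simp [map_zero']
  have hx : 0 < ‖x‖ := norm_pos_iff.2 hx0
  rw [← div_le_iff₀ hx]
  apply le_csInf
  · exact exists_bound χ
  · rintro M ⟨_, hM⟩
    rw [div_le_iff₀ hx]
    exact hM x

lemma dualNorm_le {χ : MDual G} {M : ℝ} (hM : 0 ≤ M) (h : ∀ x : G, ‖χ x‖ ≤ M * ‖x‖) :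
    dualNorm χ ≤ M := by
  apply le_of_forall_pos_le_add
  intro ε hε
  apply csInf_le (set_bddBelow χ)
  refine ⟨by positivity, fun x => (h x).trans ?_⟩
  apply mul_le_mul_of_nonneg_right _ (norm_nonneg x)
  linarith

end basic

noncomputable instance instNormedMDual (G : Type u) [NormedAddCommGroup G] :
    NormedAddCommGroup (MDual G) :=
  AddGroupNorm.toNormedAddCommGroup
    { toFun := dualNorm
      map_zero' := by
        apply le_antisymm _ (dualNorm_nonneg _)
        apply dualNorm_le le_rfl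
        intro x
        simp [zero_apply]
      add_le' := by
        intro χ ψ
        apply dualNorm_le (add_nonneg (dualNorm_nonneg _) (dualNorm_nonneg _))
        intro x
        rw [add_apply, add_mul]
        exact (norm_add_le _ _).trans (add_le_add (le_dualNorm_mul χ x) (le_dualNorm_mul ψ x))
      neg' := by
        intro χ
        have : ∀ χ : MDual G, dualNorm (-χ) ≤ dualNorm χ := by
          intro χ
          apply dualNorm_le (dualNorm_nonneg _)
          intro x
          rw [neg_apply, norm_neg]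
          exact le_dualNorm_mul χ x
        apply le_antisymm (this χ)
        conv_lhs => rw [← neg_neg χ]
        exact this (-χ)
      eq_zero_of_map_eq_zero' := by
        intro χ hχ
        apply ext'
        intro x
        have h := le_dualNorm_mul χ x
        rw [hχ, zero_mul] at h
        rw [zero_apply]
        exact norm_le_zero_iff.1 h }

/-- The weight of a topological space: the least cardinality of a base of its topology. -/
noncomputable def weight (X : Type u) [TopologicalSpace X] : Cardinal.{u} :=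
  sInf {c | ∃ B : Set (Set X), IsTopologicalBasis B ∧ #B = c}

section weight

lemma weight_le {X : Type u} [TopologicalSpace X] {B : Set (Set X)} (hB : IsTopologicalBasis B) :
    weight X ≤ #B :=
  csInf_le' ⟨B, hB, rfl⟩

lemma exists_basis (X : Type u) [TopologicalSpace X] :
    ∃ B : Set (Set X), IsTopologicalBasis B ∧ #B = weight X := by
  have h : {c | ∃ B : Set (Set X), IsTopologicalBasis B ∧ #B = c}.Nonempty :=
    ⟨_, {U | IsOpen U}, isTopologicalBasis_opens, rfl⟩
  exact csInf_mem h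

lemma exists_dense (X : Type u) [TopologicalSpace X] :
    ∃ D : Set X, Dense D ∧ #D ≤ weight X := by
  classical
  obtain ⟨B, hB, hBc⟩ := exists_basis X
  let B' : Set (Set X) := {U ∈ B | U.Nonempty}
  let f : B' → X := fun U => U.2.2.choose
  have hf : ∀ U : B', f U ∈ (U : Set X) := fun U => U.2.2.choose_spec
  refine ⟨Set.range f, ?_, ?_⟩
  · rw [hB.dense_iff]
    intro o ho hne
    exact ⟨f ⟨o, ho, hne⟩, hf ⟨o, ho, hne⟩, Set.mem_range_self _⟩
  · rw [← hBc]
    exact mk_range_le.trans (mk_le_mk_of_subset fun U hU => hU.1)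

lemma weight_le_of_dense {X : Type u} [PseudoMetricSpace X] {E : Set X} (hE : Dense E)
    {κ : Cardinal.{u}} (hκ : ℵ₀ ≤ κ) (hEκ : #E ≤ κ) : weight X ≤ κ := by
  let f : E × ℕ → Set X := fun p => Metric.ball (p.1 : X) (1 / ((p.2 : ℝ) + 1))
  have hB : IsTopologicalBasis (Set.range f) := by
    apply isTopologicalBasis_of_isOpen_of_nhds
    · rintro _ ⟨p, rfl⟩
      exact Metric.isOpen_ball
    · intro a U ha hU
      obtain ⟨ε, hε, hball⟩ := Metric.isOpen_iff.1 hU a ha
      obtain ⟨k, hk⟩ := exists_nat_one_div_lt (half_pos hε)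
      obtain ⟨e, he, hea⟩ := hE.exists_dist_lt a (Nat.one_div_pos_of_nat (n := k) (α := ℝ))
      refine ⟨f (⟨e, he⟩, k), ⟨_, rfl⟩, ?_, ?_⟩
      · exact hea
      · intro y hy
        apply hball
        change dist y e < 1 / ((k : ℝ) + 1) at hy
        rw [Metric.mem_ball]
        calc dist y a ≤ dist y e + dist e a := dist_triangle _ _ _
          _ < 1 / ((k : ℝ) + 1) + 1 / ((k : ℝ) + 1) := by
              rw [dist_comm e a]
              exact add_lt_add hy hea
          _ < ε := by linarith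
  refine (weight_le hB).trans (mk_range_le.trans ?_)
  rw [mk_prod, lift_uzero, mk_nat, lift_aleph0]
  exact mul_le_of_le hκ hEκ hκ

end weight

section main

variable {H : Type u} [NormedAddCommGroup H]

lemma norm_apply_le (χ : MDual H) (x : H) : ‖χ x‖ ≤ ‖χ‖ * ‖x‖ := le_dualNorm_mul χ x

lemma norm_le_of {χ : MDual H} {M : ℝ} (hM : 0 ≤ M) (h : ∀ x : H, ‖χ x‖ ≤ M * ‖x‖) : ‖χ‖ ≤ M :=
  dualNorm_le hM h

lemma norm_le_of_small (χ : MDual H) {R : ℝ} (hR : 0 < R)
    (h : ∀ x : H, ‖x‖ ≤ R → ‖χ x‖ < 1 / 4) : ‖χ‖ ≤ 1 / (2 * R) :=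
  norm_le_of (by positivity) (lipschitz_of_small χ.1 hR h)

/-- An element of the dual from a Lipschitz homomorphism. -/
def ofLip (f : H →+ UnitAddCircle) (M : ℝ) (h : ∀ x : H, ‖f x‖ ≤ M * ‖x‖) : MDual H :=
  ⟨f, AddMonoidHomClass.continuous_of_bound f M h⟩

lemma ofLip_apply (f : H →+ UnitAddCircle) (M : ℝ) (h : ∀ x : H, ‖f x‖ ≤ M * ‖x‖) (x : H) :
    ofLip f M h x = f x := rfl

/-- The `n`-Lipschitz homomorphisms from `H` to the circle, as functions. -/
def F (H : Type u) [NormedAddCommGroup H] (n : ℕ) : Set (H → UnitAddCircle) :=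
  {f | (∀ a b, f (a + b) = f a + f b) ∧ ∀ a, ‖f a‖ ≤ n * ‖a‖}

lemma F_closed (n : ℕ) : IsClosed (F H n) := by
  have : F H n = (⋂ a, ⋂ b, {f : H → UnitAddCircle | f (a + b) = f a + f b}) ∩
      ⋂ a, {f : H → UnitAddCircle | ‖f a‖ ≤ n * ‖a‖} := by
    ext f
    simp [F]
  rw [this]
  apply IsClosed.inter
  · refine isClosed_iInter fun a => isClosed_iInter fun b => ?_
    have h1 : Continuous fun f : H → UnitAddCircle => f (a + b) := continuous_apply _
    have h2 : Continuous fun f : H → UnitAddCircle => f a := continuous_apply _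
    have h3 : Continuous fun f : H → UnitAddCircle => f b := continuous_apply _
    exact isClosed_eq h1 (h2.add h3)
  · refine isClosed_iInter fun a => ?_
    exact isClosed_le (continuous_apply a).norm continuous_const

lemma F_compact (n : ℕ) : IsCompact (F H n) := by
  have : Fact ((0 : ℝ) < 1) := ⟨one_pos⟩
  exact (F_closed n).isCompact

lemma F_zero {n : ℕ} {f : H → UnitAddCircle} (hf : f ∈ F H n) : f 0 = 0 := by
  have := hf.1 0 0
  simpa using this

lemma F_sub_apply {n : ℕ} {f : H → UnitAddCircle} (hf : f ∈ F H n) (a b : H) :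
    f (a - b) = f a - f b := by
  have := hf.1 (a - b) b
  rw [sub_add_cancel] at this
  rw [this, add_sub_cancel_right]

lemma F_sub {n : ℕ} {f g : H → UnitAddCircle} (hf : f ∈ F H n) (hg : g ∈ F H n) :
    f - g ∈ F H (2 * n) := by
  refine ⟨fun a b => ?_, fun a => ?_⟩
  · simp only [Pi.sub_apply, hf.1, hg.1]
    abel
  · simp only [Pi.sub_apply]
    refine (norm_sub_le _ _).trans ?_
    have h1 := hf.2 a
    have h2 := hg.2 a
    push_cast
    linarith

/-- A function in `F H n` as an element of the dual. -/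
def ofF {n : ℕ} (f : H → UnitAddCircle) (hf : f ∈ F H n) : MDual H :=
  ofLip { toFun := f, map_zero' := F_zero hf, map_add' := hf.1 } n hf.2

lemma ofF_apply {n : ℕ} (f : H → UnitAddCircle) (hf : f ∈ F H n) (x : H) : ofF f hf x = f x := rfl

/-- A small subset of `H` with trivial annihilator in the dual of `H`. -/
lemma exists_total {κ : Cardinal.{u}} (hκ : ℵ₀ ≤ κ) {D : Set (MDual H)} (hD : Dense D)
    (hDκ : #D ≤ κ) :
    ∃ N : Set H, #N ≤ κ ∧ ∀ φ : MDual H, (∀ χ ∈ N, φ χ = 0) → φ = 0 := by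
  classical
  let P : D × ℕ × ℕ → H → Prop := fun i χ => ‖χ‖ ≤ i.2.2 ∧ 1 / ((i.2.1 : ℝ) + 1) < ‖(i.1 : MDual H) χ‖
  let c : D × ℕ × ℕ → H := fun i => if h : ∃ χ, P i χ then h.choose else 0
  have hc : ∀ i, (∃ χ, P i χ) → P i (c i) := by
    intro i h
    simp only [c, dif_pos h]
    exact h.choose_spec
  refine ⟨Set.range c, ?_, ?_⟩
  · refine mk_range_le.trans ?_
    rw [mk_prod, lift_uzero, mk_prod, lift_mul, mk_nat, lift_aleph0]
    have h1 : (ℵ₀ : Cardinal.{u}) * ℵ₀ ≤ κ := by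
      rw [aleph0_mul_aleph0]
      exact hκ
    simpa using mul_le_of_le hκ hDκ h1
  · intro φ hφ
    by_contra hne
    have : ∃ χ, φ χ ≠ 0 := by
      by_contra hcon
      push Not at hcon
      exact hne (ext' fun x => by rw [hcon x, zero_apply])
    obtain ⟨χ, hχ⟩ := this
    have hpos : 0 < ‖φ χ‖ := norm_pos_iff.2 hχ
    obtain ⟨q, hq⟩ := exists_nat_one_div_lt (half_pos hpos)
    obtain ⟨M, hM⟩ := exists_nat_ge ‖χ‖
    have hq1 : (0 : ℝ) < 1 / ((q : ℝ) + 1) := Nat.one_div_pos_of_nat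
    have hδ : 0 < 1 / ((q : ℝ) + 1) / ((M : ℝ) + 1) := by positivity
    obtain ⟨d, hd, hφd⟩ := hD.exists_dist_lt φ hδ
    have key : ∀ ψ : H, ‖ψ‖ ≤ M → ‖(φ - d) ψ‖ < 1 / ((q : ℝ) + 1) := by
      intro ψ hψ
      have h1 := norm_apply_le (φ - d) ψ
      have h2 : ‖φ - d‖ < 1 / ((q : ℝ) + 1) / ((M : ℝ) + 1) := by
        rwa [← dist_eq_norm]
      have h3 : ‖φ - d‖ * ‖ψ‖ ≤ ‖φ - d‖ * ((M : ℝ) + 1) :=
        mul_le_mul_of_nonneg_left (by linarith) (norm_nonneg _)
      have h4 : ‖φ - d‖ * ((M : ℝ) + 1) < 1 / ((q : ℝ) + 1) := by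
        rwa [lt_div_iff₀ (by positivity)] at h2
      linarith
    have hex : ∃ ψ, P (⟨d, hd⟩, q, M) ψ := by
      refine ⟨χ, hM, ?_⟩
      change 1 / ((q : ℝ) + 1) < ‖d χ‖
      have h1 := key χ hM
      rw [sub_apply] at h1
      have h2 : ‖φ χ‖ ≤ ‖φ χ - d χ‖ + ‖d χ‖ := by
        have := norm_add_le (φ χ - d χ) (d χ)
        rwa [sub_add_cancel] at this
      linarith
    obtain ⟨h1, h2⟩ := hc _ hex
    have h3 := hφ _ (Set.mem_range_self (f := c) (⟨d, hd⟩, q, M))
    have h4 := key _ h1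
    rw [sub_apply, h3, zero_sub, norm_neg] at h4
    exact absurd h4 (not_lt.2 h2.le)

lemma compact_sep {N : Set H} (hN : ∀ φ : MDual H, (∀ χ ∈ N, φ χ = 0) → φ = 0)
    (n : ℕ) (χ₀ : H) {ε : ℝ} (hε : 0 < ε) :
    ∃ S : Finset N, ∃ m : ℕ, ∀ f ∈ F H n, (∀ χ ∈ S, ‖f (χ : H)‖ < 1 / ((m : ℝ) + 1)) →
      ‖f χ₀‖ < ε := by
  classical
  let K : Set (H → UnitAddCircle) := F H n ∩ {f | ε ≤ ‖f χ₀‖}
  have hK : IsCompact K :=
    (F_compact n).inter_right (isClosed_le continuous_const (continuous_apply χ₀).norm)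
  let U : N × ℕ → Set (H → UnitAddCircle) := fun i => {f | 1 / ((i.2 : ℝ) + 1) < ‖f (i.1 : H)‖}
  have hU : ∀ i, IsOpen (U i) := fun i =>
    isOpen_lt continuous_const (continuous_apply (i.1 : H)).norm
  have hcover : K ⊆ ⋃ i, U i := by
    intro f hf
    by_contra hcon
    simp only [Set.mem_iUnion, not_exists] at hcon
    have hzero : ∀ χ ∈ N, ofF f hf.1 χ = 0 := by
      intro χ hχ
      rw [ofF_apply]
      by_contra hne
      have hpos : 0 < ‖f χ‖ := norm_pos_iff.2 hne
      obtain ⟨q, hq⟩ := exists_nat_one_div_lt hpos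
      exact hcon (⟨χ, hχ⟩, q) hq
    have h0 := hN _ hzero
    have h1 : f χ₀ = 0 := by
      rw [← ofF_apply f hf.1 χ₀, h0, zero_apply]
    have h2 : ε ≤ ‖f χ₀‖ := hf.2
    rw [h1, norm_zero] at h2
    linarith
  obtain ⟨t, ht⟩ := hK.elim_finite_subcover U hU hcover
  refine ⟨t.image Prod.fst, t.sup Prod.snd, ?_⟩
  intro f hf hS
  by_contra hcon
  rw [not_lt] at hcon
  have hmem := ht ⟨hf, hcon⟩
  simp only [Set.mem_iUnion] at hmem
  obtain ⟨i, hit, hi⟩ := hmem
  have h1 := hS i.1 (Finset.mem_image_of_mem _ hit)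
  have h2 : i.2 ≤ t.sup Prod.snd := Finset.le_sup (f := Prod.snd) hit
  have h3 : (1 : ℝ) / (((t.sup Prod.snd : ℕ) : ℝ) + 1) ≤ 1 / ((i.2 : ℝ) + 1) := by
    apply one_div_le_one_div_of_le
    · positivity
    · have : ((i.2 : ℕ) : ℝ) ≤ ((t.sup Prod.snd : ℕ) : ℝ) := by exact_mod_cast h2
      linarith
  have h4 : 1 / ((i.2 : ℝ) + 1) < ‖f (i.1 : H)‖ := hi
  linarith

lemma finite_net (n : ℕ) {N : Set H} (S : Finset N) (m : ℕ) :
    ∃ Z : Finset (H → UnitAddCircle), (∀ z ∈ Z, z ∈ F H n) ∧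
      ∀ f ∈ F H n, ∃ z ∈ Z, ∀ χ ∈ S, ‖(f - z) (χ : H)‖ < 1 / ((m : ℝ) + 1) := by
  let U : (H → UnitAddCircle) → Set (H → UnitAddCircle) := fun z =>
    {f | ∀ χ ∈ S, ‖(f - z) (χ : H)‖ < 1 / ((m : ℝ) + 1)}
  have hUo : ∀ z, IsOpen (U z) := by
    intro z
    have : U z = ⋂ χ ∈ S, {f : H → UnitAddCircle | ‖(f - z) (χ : H)‖ < 1 / ((m : ℝ) + 1)} := by
      ext f
      simp [U]
    rw [this]
    apply isOpen_biInter_finset
    intro χ _
    refine isOpen_lt ?_ continuous_const
    exact (((continuous_apply (χ : H))).sub continuous_const).norm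
  have hUz : ∀ z, z ∈ U z := by
    intro z χ _
    simp only [sub_self, Pi.zero_apply, norm_zero]
    exact Nat.one_div_pos_of_nat
  obtain ⟨t, ht1, ht2⟩ := (F_compact (H := H) n).elim_nhds_subcover U
    (fun z _ => (hUo z).mem_nhds (hUz z))
  refine ⟨t, ht1, fun f hf => ?_⟩
  have := ht2 hf
  simp only [Set.mem_iUnion] at this
  obtain ⟨z, hz, hfz⟩ := this
  exact ⟨z, hz, hfz⟩

lemma finite_repr (Z : Finset (H → UnitAddCircle)) (A : Set H) {ε : ℝ} (hε : 0 < ε) :
    ∃ E : Set H, E ⊆ A ∧ E.Finite ∧ ∀ a ∈ A, ∃ b ∈ E, ∀ z ∈ Z, ‖z a - z b‖ < ε := by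
  classical
  have : Fact ((0 : ℝ) < 1) := ⟨one_pos⟩
  let g : H → (Z → UnitAddCircle) := fun a z => z.1 a
  have htb : TotallyBounded (g '' A) :=
    (isCompact_univ (X := Z → UnitAddCircle)).totallyBounded.subset (Set.subset_univ _)
  obtain ⟨t, htA, htf, htc⟩ := htb.exists_subset (Metric.dist_mem_uniformity hε)
  have hch : ∀ y ∈ t, ∃ a ∈ A, g a = y := fun y hy => htA hy
  choose! r hrA hr using hch
  refine ⟨r '' t, ?_, htf.image r, ?_⟩
  · rintro _ ⟨y, hy, rfl⟩
    exact hrA y hy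
  · intro a ha
    have h1 := htc (Set.mem_image_of_mem g ha)
    simp only [Set.mem_iUnion, Set.mem_ofPred_eq] at h1
    obtain ⟨y, hy, hd⟩ := h1
    refine ⟨r y, Set.mem_image_of_mem r hy, fun z hz => ?_⟩
    have h2 : dist (g a ⟨z, hz⟩) (y ⟨z, hz⟩) < ε := lt_of_le_of_lt (dist_le_pi_dist _ _ _) hd
    rw [← hr y hy, dist_eq_norm] at h2
    exact h2

lemma mk_finset_le (N : Type u) {κ : Cardinal.{u}} (hκ : ℵ₀ ≤ κ) (hN : #N ≤ κ) :
    #(Finset N) ≤ κ := by
  classical
  have h1 : #(Finset N) ≤ #(List N) :=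
    mk_le_of_surjective (f := List.toFinset) List.toFinset_surjective
  exact h1.trans ((mk_list_le_max N).trans (max_le hκ hN))

/-- The key approximation statement. -/
lemma key {κ : Cardinal.{u}} (hκ : ℵ₀ ≤ κ) {D : Set (MDual H)} (hD : Dense D) (hDκ : #D ≤ κ) :
    ∃ E : Set H, #E ≤ κ ∧ ∀ (χ₀ : H) (n : ℕ), ∃ χ₁ ∈ E, ∀ f ∈ F H n, ‖f (χ₀ - χ₁)‖ < 1 / 4 := by
  classical
  obtain ⟨N, hNκ, hN⟩ := exists_total hκ hD hDκ
  have hε : (0 : ℝ) < 1 / 16 := by norm_num
  choose Z hZF hZ using fun (i : ℕ × Finset N × ℕ) => finite_net (H := H) i.1 i.2.1 i.2.2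
  let A : ℕ × Finset N × ℕ → Set H := fun i =>
    {χ | ∀ f ∈ F H (2 * i.1), (∀ χ' ∈ i.2.1, ‖f (χ' : H)‖ < 1 / ((i.2.2 : ℝ) + 1)) →
      ‖f χ‖ < 1 / 16}
  choose E hEA hEfin hE using fun (i : ℕ × Finset N × ℕ) => finite_repr (Z i) (A i) hε
  refine ⟨⋃ i, E i, ?_, ?_⟩
  · refine mk_iUnion_le_sum_mk.trans ?_
    have h1 : (Cardinal.sum fun i : ℕ × Finset N × ℕ => #(E i)) ≤
        Cardinal.sum fun _ : ℕ × Finset N × ℕ => (ℵ₀ : Cardinal.{u}) := by
      apply sum_le_sum
      intro i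
      exact (hEfin i).lt_aleph0.le
    refine h1.trans ?_
    rw [sum_const']
    rw [mk_prod, lift_uzero, mk_prod, lift_uzero, mk_nat, lift_aleph0]
    exact mul_le_of_le hκ (mul_le_of_le hκ hκ (mul_le_of_le hκ (mk_finset_le N hκ hNκ) hκ)) hκ
  · intro χ₀ n
    obtain ⟨S, m, hS⟩ := compact_sep hN (2 * n) χ₀ hε
    have hA : χ₀ ∈ A (n, S, m) := hS
    obtain ⟨χ₁, hχ₁, hclose⟩ := hE (n, S, m) χ₀ hA
    have hA1 : χ₁ ∈ A (n, S, m) := hEA _ hχ₁
    refine ⟨χ₁, Set.mem_iUnion.2 ⟨_, hχ₁⟩, ?_⟩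
    intro f hf
    obtain ⟨z, hz, hfz⟩ := hZ (n, S, m) f hf
    have hzF : z ∈ F H n := hZF (n, S, m) z hz
    have hsub := F_sub hf hzF
    have h1 : ‖(f - z) χ₀‖ < 1 / 16 := hA _ hsub hfz
    have h2 : ‖(f - z) χ₁‖ < 1 / 16 := hA1 _ hsub hfz
    have h3 : ‖z χ₀ - z χ₁‖ < 1 / 16 := hclose z hz
    rw [F_sub_apply hf]
    have h4 : f χ₀ - f χ₁ = (f - z) χ₀ + (z χ₀ - z χ₁) - (f - z) χ₁ := by
      simp only [Pi.sub_apply]
      abel
    rw [h4]
    have h5 := norm_sub_le ((f - z) χ₀ + (z χ₀ - z χ₁)) ((f - z) χ₁)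
    have h6 := norm_add_le ((f - z) χ₀) (z χ₀ - z χ₁)
    linarith

end main

section final

variable (G : Type u) [NormedAddCommGroup G]

lemma eval_mem_F {G : Type u} [NormedAddCommGroup G] {n : ℕ} {x : G} (hx : ‖x‖ ≤ n) :
    (fun χ : MDual G => χ x) ∈ F (MDual G) n := by
  refine ⟨fun a b => rfl, fun a => ?_⟩
  refine (norm_apply_le a x).trans ?_
  rw [mul_comm]
  exact mul_le_mul_of_nonneg_right hx (norm_nonneg _)

lemma infinite_case (h : ℵ₀ ≤ weight (MDual (MDual G))) :
    weight (MDual G) ≤ weight (MDual (MDual G)) := by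
  obtain ⟨D, hD, hDκ⟩ := exists_dense (MDual (MDual G))
  obtain ⟨E, hEκ, hE⟩ := key h hD hDκ
  refine weight_le_of_dense ?_ h hEκ
  rw [Metric.dense_iff]
  intro χ₀ r hr
  obtain ⟨n, hn⟩ := exists_nat_gt (1 / r)
  have hn0 : (0 : ℝ) < n := lt_trans (by positivity) hn
  obtain ⟨χ₁, hχ₁, h1⟩ := hE χ₀ n
  refine ⟨χ₁, ?_, hχ₁⟩
  rw [Metric.mem_ball, dist_comm, dist_eq_norm]
  have h2 : ‖χ₀ - χ₁‖ ≤ 1 / (2 * n) := by
    apply norm_le_of_small _ hn0
    intro x hx
    exact h1 (fun χ : MDual G => χ x) (eval_mem_F hx)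
  have h3 : 1 / (2 * (n : ℝ)) < r := by
    rw [div_lt_iff₀ hr] at hn
    rw [div_lt_iff₀ (by positivity)]
    nlinarith
  linarith

lemma finite_of_weight {X : Type u} [TopologicalSpace X] [T1Space X] (h : weight X < ℵ₀) :
    Finite X ∧ #X ≤ weight X := by
  classical
  obtain ⟨B, hB, hBc⟩ := exists_basis X
  have hBfin : Finite B := by
    rw [← lt_aleph0_iff_finite, hBc]
    exact h
  have hXfin : Finite X := by
    let g : X → Set B := fun x => {U | x ∈ (U : Set X)}
    have hg : Function.Injective g := by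
      intro x y hxy
      by_contra hne
      have hopen : IsOpen ({y}ᶜ : Set X) := isOpen_compl_singleton
      obtain ⟨U, hU, hxU, hUsub⟩ := hB.exists_subset_of_mem_open
        (show x ∈ ({y}ᶜ : Set X) from hne) hopen
      have h1 : (⟨U, hU⟩ : B) ∈ g x := hxU
      rw [hxy] at h1
      exact hUsub h1 rfl
    exact Finite.of_injective g hg
  refine ⟨hXfin, ?_⟩
  rw [← hBc]
  have hdisc : ∀ x : X, IsOpen ({x} : Set X) := by
    intro x
    have : DiscreteTopology X := inferInstance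
    exact isOpen_discrete _
  have hmem : ∀ x : X, ({x} : Set X) ∈ B := by
    intro x
    obtain ⟨U, hU, hxU, hUsub⟩ := hB.exists_subset_of_mem_open (Set.mem_singleton x) (hdisc x)
    have : U = {x} := Set.Subset.antisymm hUsub (Set.singleton_subset_iff.2 hxU)
    rwa [← this]
  exact mk_le_of_injective (f := fun x : X => (⟨{x}, hmem x⟩ : B)) (by
    intro x y hxy
    have := congrArg Subtype.val hxy
    exact Set.singleton_injective this)

lemma finite_case (h : weight (MDual (MDual G)) < ℵ₀) :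
    weight (MDual G) ≤ weight (MDual (MDual G)) := by
  classical
  obtain ⟨hfin, hcard⟩ := finite_of_weight h
  refine le_trans ?_ hcard
  have := Fintype.ofFinite (MDual (MDual G))
  -- evaluation into the additive characters of the bidual
  let g : MDual G → AddChar (MDual (MDual G)) ℂ := fun χ =>
    { toFun := fun φ => (AddCircle.toCircle (φ χ) : ℂ)
      map_zero_eq_one' := by
        rw [zero_apply, AddCircle.toCircle_zero]
        rfl
      map_add_eq_mul' := by
        intro φ ψ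
        rw [add_apply, AddCircle.toCircle_add]
        rfl }
  have hg : Function.Injective g := by
    intro χ ψ hχψ
    apply ext'
    intro x
    obtain ⟨n, hn⟩ := exists_nat_ge ‖x‖
    have h1 := DFunLike.congr_fun hχψ (ofF _ (eval_mem_F hn))
    have h2 : (AddCircle.toCircle (χ x) : ℂ) = (AddCircle.toCircle (ψ x) : ℂ) := h1
    exact AddCircle.injective_toCircle one_ne_zero (Circle.coe_injective h2)
  have : Finite (MDual G) := Finite.of_injective g hg
  have := Fintype.ofFinite (MDual G)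
  have h1 : #(MDual G) ≤ #(MDual (MDual G)) := by
    rw [mk_fintype, mk_fintype]
    have h2 : Fintype.card (MDual G) ≤ Fintype.card (AddChar (MDual (MDual G)) ℂ) :=
      Fintype.card_le_of_injective g hg
    have h3 : Fintype.card (AddChar (MDual (MDual G)) ℂ) ≤ Fintype.card (MDual (MDual G)) :=
      AddChar.card_addChar_le _ _
    exact_mod_cast h2.trans h3
  refine le_trans ?_ h1
  have hB : IsTopologicalBasis (Set.range fun x : MDual G => ({x} : Set (MDual G))) := by
    apply isTopologicalBasis_of_isOpen_of_nhds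
    · rintro _ ⟨x, rfl⟩
      exact isOpen_discrete _
    · intro a U ha _
      exact ⟨{a}, ⟨a, rfl⟩, rfl, Set.singleton_subset_iff.2 ha⟩
  exact (weight_le hB).trans mk_range_le

/-- The norm of `ℝ/ℤ` is the least `|s|` with `exp (2 π i s)` the given point of the circle. -/
lemma circle_norm (t : UnitAddCircle) :
    IsLeast {r : ℝ | ∃ s : ℝ, Circle.exp (2 * Real.pi * s) = AddCircle.toCircle t ∧ r = |s|} ‖t‖ := by
  have heq : ∀ s : ℝ, Circle.exp (2 * Real.pi * s) = AddCircle.toCircle (s : UnitAddCircle) := by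
    intro s
    rw [AddCircle.toCircle_apply_mk, div_one]
  constructor
  · induction t using QuotientAddGroup.induction_on with
    | H x =>
      refine ⟨x - round x, ?_, ?_⟩
      · rw [heq]
        congr 1
        have h0 : ((round x : ℝ) : UnitAddCircle) = 0 := by
          rw [AddCircle.coe_eq_zero_iff]
          exact ⟨round x, by simp⟩
        rw [AddCircle.coe_sub, h0, sub_zero]
      · exact UnitAddCircle.norm_eq
  · rintro r ⟨s, hs, rfl⟩
    rw [heq] at hs
    have h1 : (s : UnitAddCircle) = t := AddCircle.injective_toCircle one_ne_zero hs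
    rw [← h1, UnitAddCircle.norm_eq]
    have := round_le s 0
    simpa using this

end final

/-- For every abelian group `G` with a norm, the weight of the metric bidual is at least the
weight of the metric dual. -/
theorem result (G : Type u) [NormedAddCommGroup G] :
    weight (MDual G) ≤ weight (MDual (MDual G)) := by
  rcases lt_or_ge (weight (MDual (MDual G))) ℵ₀ with h | h
  · exact finite_case G h
  · exact infinite_case G h

end Pool.Agent.Results.MP_e4445d_al.BidualWeight
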